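import Pool.Agent.H24.CL.Targets

set_option autoImplicit false

open Finset MeasureTheory Pool.Agent.H24.CL

namespace Pool.Agent.H11.CLV

theorem pf_SH (hTO : T_TO) : T_SH := by
  classical
  intro k q hq hkq a ha ha1 D hD
  obtain ⟨t1, -, -, t4, t5, -⟩ := hTO k q hq.pos
  have hfact : Fact q.Prime := ⟨hq⟩
  have hex : ∃ j, a ∈ H k q j := ⟨k, ha⟩
  obtain ⟨j, hj, hmin⟩ : ∃ j, a ∈ H k q j ∧ ∀ m < j, a ∉ H k q m :=
    ⟨Nat.find hex, Nat.find_spec hex, fun m hm => Nat.find_min hex hm⟩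
  have hmono : ∀ m m' : ℕ, m ≤ m' → a ∈ H k q m → a ∈ H k q m' := by
    intro m m' hmm h
    have h' : (q ^ m) • a = 0 := h
    change (q ^ m') • a = 0
    obtain ⟨d, rfl⟩ := Nat.exists_eq_add_of_le hmm
    rw [pow_add, mul_comm, mul_smul, h', smul_zero]
  have hj2 : 2 ≤ j := by
    by_contra hlt
    exact ha1 (hmono j 1 (by omega) hj)
  obtain ⟨r, rfl⟩ : ∃ r, j = r + 1 := ⟨j - 1, by omega⟩
  have hr1 : 1 ≤ r := by omega
  have hnot : a ∉ H k q r := hmin r (Nat.lt_succ_self r)
  obtain ⟨n, hn⟩ := (t1 (r + 1) a).mp hj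
  have hi0 : ∃ i, ¬ (q : ℤ) ∣ n i := by
    by_contra hall
    push Not at hall
    choose m hm using hall
    apply hnot
    refine (t1 r a).mpr ⟨m, ?_⟩
    rw [hn]
    funext i
    unfold tor
    congr 1
    rw [hm i]
    push_cast
    have hq0 : (q : ℝ) ≠ 0 := by exact_mod_cast hq.ne_zero
    field_simp
    ring
  obtain ⟨i0, hi0⟩ := hi0
  have hk : 0 < k := i0.pos
  set p : Polynomial (ZMod q) := ∑ i : Fin k,
    Polynomial.C ((((i.val + 1 : ℕ) : ZMod q)) * ((n i : ℤ) : ZMod q)) * Polynomial.X ^ i.val with hp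
  have hcoeff : p.coeff i0.val = (((i0.val + 1 : ℕ) : ZMod q)) * ((n i0 : ℤ) : ZMod q) := by
    rw [hp, Polynomial.finsetSum_coeff, Finset.sum_eq_single i0]
    · rw [Polynomial.coeff_C_mul, Polynomial.coeff_X_pow, if_pos rfl, mul_one]
    · intro b _ hb
      rw [Polynomial.coeff_C_mul, Polynomial.coeff_X_pow, if_neg, mul_zero]
      intro hh
      exact hb (Fin.ext hh.symm)
    · intro hh
      exact absurd (Finset.mem_univ _) hh
  have hc0 : p.coeff i0.val ≠ 0 := by
    rw [hcoeff]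
    refine mul_ne_zero ?_ ?_
    · intro h0
      rw [ZMod.natCast_eq_zero_iff] at h0
      have h1 := Nat.le_of_dvd (Nat.succ_pos _) h0
      have h2 := i0.isLt
      omega
    · intro h0
      rw [ZMod.intCast_zmod_eq_zero_iff_dvd] at h0
      exact hi0 h0
  have hp0 : p ≠ 0 := by
    intro h
    rw [h, Polynomial.coeff_zero] at hc0
    exact hc0 rfl
  have hdeg : p.natDegree ≤ k - 1 := by
    rw [hp]
    refine Polynomial.natDegree_sum_le_of_forall_le _ _ ?_
    intro i _
    refine (Polynomial.natDegree_C_mul_X_pow_le _ _).trans ?_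
    have := i.isLt
    omega
  have hroot : ∀ b ∈ D, p.eval ((b : ℕ) : ZMod q) = 0 := by
    intro b hb
    have h1 := (hD b hb).2
    rw [hn, t5 r b n] at h1
    have h0 : (0 : X k) = tor q r (fun _ => 0) := by
      funext i
      simp [tor]
    rw [h0, t4] at h1
    have h2 := h1 ⟨0, hk⟩
    simp only [pow_zero, one_mul, Nat.sub_zero, sub_zero, zero_add, Nat.choose_one_right] at h2
    have h3 : (q : ℤ) ∣ ∑ j : Fin k, ((j.val + 1 : ℕ) : ℤ) * (b : ℤ) ^ j.val * n j :=
      (dvd_pow_self _ (by omega)).trans h2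
    rw [← ZMod.intCast_zmod_eq_zero_iff_dvd] at h3
    rw [hp, Polynomial.eval_finsetSum]
    rw [← h3, Int.cast_sum]
    refine Finset.sum_congr rfl fun i _ => ?_
    simp only [Polynomial.eval_mul, Polynomial.eval_C, Polynomial.eval_pow, Polynomial.eval_X]
    push_cast
    ring
  have hinj : Set.InjOn (fun b : ℕ => ((b : ℕ) : ZMod q)) (D : Set ℕ) := by
    intro b hb b' hb' hbb
    have h1 := (hD b hb).1
    have h2 := (hD b' hb').1
    have h3 : ((b : ℕ) : ZMod q) = ((b' : ℕ) : ZMod q) := hbb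
    rw [ZMod.natCast_eq_natCast_iff'] at h3
    rwa [Nat.mod_eq_of_lt h1, Nat.mod_eq_of_lt h2] at h3
  calc D.card = (D.image (fun b : ℕ => ((b : ℕ) : ZMod q))).card := (Finset.card_image_of_injOn hinj).symm
    _ ≤ p.roots.toFinset.card := by
        apply Finset.card_le_card
        intro x hx
        rw [Finset.mem_image] at hx
        obtain ⟨b, hb, rfl⟩ := hx
        rw [Multiset.mem_toFinset, Polynomial.mem_roots hp0]
        exact hroot b hb
    _ ≤ Multiset.card p.roots := Multiset.toFinset_card_le _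
    _ ≤ p.natDegree := Polynomial.card_roots' p
    _ ≤ k - 1 := hdeg

end Pool.Agent.H11.CLV
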